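import Pool.Agent.Work.MP_c4c804_co.Beyond

/-!
Every subset of `ZMod p` of size between a constant and `(log p) ^ (1 + δ)` has a nonzero dilate
with a gap `K` times the average gap.
-/

namespace Pool.Agent.Results.MP_c4c804_co.GapBeyondLog

open Pool.Agent.Work.MP_c4c804_co in
theorem result (K : ℝ) : ∃ δ : ℝ, 0 < δ ∧ ∃ n₀ : ℕ, ∀ p : ℕ, p.Prime → ∀ A : Finset (ZMod p),
    n₀ ≤ A.card → (A.card : ℝ) ≤ Real.log p ^ (1 + δ) →
      ∃ c : ZMod p, c ≠ 0 ∧ ∃ x : ZMod p, ∀ i : ℕ, (i : ℝ) ≤ K * p / A.card →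
        ∀ a ∈ A, c * a ≠ x + i := by
  obtain ⟨δ, hδ, n0, hn0⟩ := core_pow (7 * |K| + 1) (by have := abs_nonneg K; linarith)
  refine ⟨δ, hδ, n0, fun p hp A hn hA => ?_⟩
  have : NeZero p := ⟨hp.ne_zero⟩
  have hp0 : (0 : ℝ) < p := by exact_mod_cast hp.pos
  obtain ⟨c, hc, t, ht⟩ := hn0 A.card hn p hp hA (fun i => (A.equivFin.symm i : ZMod p))
  refine ⟨c, hc, t, fun j hj a ha hac => ?_⟩
  have hn1 : (0 : ℝ) < A.card := by exact_mod_cast Finset.card_pos.2 ⟨a, ha⟩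
  have h7 := ht (A.equivFin ⟨a, ha⟩)
  simp only [Equiv.symm_apply_apply] at h7
  have e : a * c - t = (((j : ℕ) : ℤ) : ZMod p) := by
    rw [mul_comm, hac]; push_cast; ring
  rw [e] at h7
  have h8 := chord_intCast_le (p := p) (j : ℤ)
  have h10 : K * (p : ℝ) / A.card ≤ |K| * p / A.card := by gcongr; exact le_abs_self K
  have h11 : 7 * |((j : ℤ) : ℝ)| / p ≤ (7 * |K| + 1) / A.card := by
    rw [Int.cast_natCast, abs_of_nonneg (Nat.cast_nonneg _), div_le_iff₀ hp0]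
    have h12 : (7 * |K| + 1) / (A.card : ℝ) * p = 7 * (|K| * p / A.card) + p / A.card := by ring
    have h13 : 0 ≤ (p : ℝ) / A.card := by positivity
    linarith
  linarith

end Pool.Agent.Results.MP_c4c804_co.GapBeyondLog
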